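import Mathlib

set_option autoImplicit false

/-!
# EDW Est: the leading term of a sum over injective tuples
-/

namespace Pool.Agent.EDW

open Finset

/-- the numbers `1, 2, ...` without `j` -/
def mm (j i : ℕ) : ℕ := if i + 1 < j then i + 1 else i + 2

theorem mm_pos (j i : ℕ) : 1 ≤ mm j i := by
  unfold mm
  split_ifs <;> omega

theorem mm_ne (j i : ℕ) : mm j i ≠ j := by
  unfold mm
  split_ifs <;> omega

theorem mm_strict (j : ℕ) : StrictMono (mm j) := by
  intro a b hab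
  unfold mm
  split_ifs <;> omega

theorem mm_le (j i : ℕ) : mm j i ≤ i + 2 := by
  unfold mm
  split_ifs <;> omega

/-- a number smaller than `mm j i` is one of the previous ones -/
theorem mm_surj (j i n : ℕ) (hj : 1 ≤ j) (hn : 1 ≤ n) (hnj : n ≠ j) (h : n < mm j i) :
    ∃ i' < i, mm j i' = n := by
  unfold mm at h ⊢
  rcases Nat.lt_or_ge n j with h1 | h1
  · refine ⟨n - 1, ?_, ?_⟩
    · split_ifs at h <;> omega
    · rw [if_pos (by omega)]
      omega
  · refine ⟨n - 2, ?_, ?_⟩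
    · split_ifs at h <;> omega
    · rw [if_neg (by omega)]
      omega

/-- a set of `t` numbers different from `0` and `j` has product at least that of the `t` smallest -/
theorem prod_set (j : ℕ) (hj : 1 ≤ j) (T : Finset ℕ) : (∀ n ∈ T, 1 ≤ n ∧ n ≠ j) →
    ∏ i ∈ range T.card, mm j i ≤ ∏ n ∈ T, n := by
  induction T using Finset.induction_on_max with
  | empty => intro _; simp
  | insert M S hM ih =>
    intro h
    have hMS : M ∉ S := fun h1 => lt_irrefl _ (hM M h1)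
    rw [Finset.card_insert_of_notMem hMS, Finset.prod_range_succ, Finset.prod_insert hMS, mul_comm]
    have h1 := ih (fun n hn => h n (Finset.mem_insert_of_mem hn))
    refine Nat.mul_le_mul ?_ h1
    have hMM := h M (Finset.mem_insert_self _ _)
    have h2 : S ⊆ (Finset.Ico 1 M).erase j := by
      intro n hn
      rw [Finset.mem_erase, Finset.mem_Ico]
      have h3 := h n (Finset.mem_insert_of_mem hn)
      exact ⟨h3.2, h3.1, hM n hn⟩
    have h3 := Finset.card_le_card h2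
    unfold mm
    by_cases hjM : j < M
    · rw [Finset.card_erase_of_mem (by rw [Finset.mem_Ico]; omega), Nat.card_Ico] at h3
      split_ifs <;> omega
    · have h4 := Finset.card_erase_le (s := Finset.Ico 1 M) (a := j)
      rw [Nat.card_Ico] at h4
      split_ifs <;> omega

/-- the ratios -/
theorem ratio_le (j k : ℕ) (hj : 1 ≤ j) (n : ℕ → ℕ) (hn : ∀ i < k, 1 ≤ n i ∧ n i ≠ j)
    (hinj : Set.InjOn n (Set.Iio k)) (t : ℕ) (ht : t ≤ k) :
    ∏ i ∈ range t, mm j i ≤ ∏ i ∈ range t, n i := by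
  classical
  have hinj' : Set.InjOn n ↑(range t) := fun a ha b hb h => hinj (by
    rw [Finset.mem_coe, Finset.mem_range] at ha
    exact lt_of_lt_of_le ha ht) (by
    rw [Finset.mem_coe, Finset.mem_range] at hb
    exact lt_of_lt_of_le hb ht) h
  have h1 := prod_set j hj ((range t).image n) (by
    intro a ha
    obtain ⟨i, hi, rfl⟩ := Finset.mem_image.1 ha
    exact hn i (lt_of_lt_of_le (Finset.mem_range.1 hi) ht))
  rw [Finset.card_image_of_injOn hinj', Finset.card_range, Finset.prod_image hinj'] at h1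
  exact h1

/-- a different tuple has a strictly larger product somewhere -/
theorem ratio_lt (j k : ℕ) (hj : 1 ≤ j) (n : ℕ → ℕ) (hn : ∀ i < k, 1 ≤ n i ∧ n i ≠ j)
    (hinj : Set.InjOn n (Set.Iio k)) (hne : ∃ i < k, n i ≠ mm j i) :
    ∃ t, t < k ∧ ∏ i ∈ range (t + 1), mm j i + 1 ≤ ∏ i ∈ range (t + 1), n i := by
  classical
  have hex : ∃ i, i < k ∧ n i ≠ mm j i := hne
  obtain ⟨hi1, hi2⟩ := Nat.find_spec hex
  set i := Nat.find hex with hi
  have hmin : ∀ i' < i, n i' = mm j i' := by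
    intro i' hi'
    by_contra hcon
    exact Nat.find_min hex hi' ⟨lt_trans hi' hi1, hcon⟩
  refine ⟨i, hi1, ?_⟩
  have h1 : mm j i < n i := by
    rcases lt_trichotomy (n i) (mm j i) with h | h | h
    · obtain ⟨i', hi', h2⟩ := mm_surj j i (n i) hj (hn i hi1).1 (hn i hi1).2 h
      have h3 := hinj (x₁ := i') (x₂ := i) (lt_trans hi' hi1) hi1 (by rw [hmin i' hi', h2])
      omega
    · exact absurd h hi2
    · exact h
  rw [Finset.prod_range_succ, Finset.prod_range_succ]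
  have h2 : ∏ x ∈ range i, n x = ∏ x ∈ range i, mm j x :=
    Finset.prod_congr rfl fun x hx => hmin x (Finset.mem_range.1 hx)
  rw [h2]
  have h3 : 0 < ∏ x ∈ range i, mm j x := Finset.prod_pos fun x _ => mm_pos j x
  nlinarith

/-- Abel summation for products, with one small factor -/
theorem abel (k : ℕ) (r : ℕ → ℝ) (x : ℕ → ℕ) (G : ℕ) (ρ : ℝ) (hρ0 : 0 ≤ ρ) (hρ1 : ρ ≤ 1)
    (hr : ∀ i, 0 ≤ r i) (hR : ∀ t ≤ k, ∏ i ∈ range t, r i ≤ 1)
    (hx : ∀ i, i + 1 < k → x (i + 1) + G ≤ x i) :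
    ∀ t, t + 1 ≤ k →
      (∏ i ∈ range (t + 1), r i ^ x i ≤ (∏ i ∈ range (t + 1), r i) ^ x t) ∧
      ((∃ t' < t, ∏ i ∈ range (t' + 1), r i ≤ ρ) →
        ∏ i ∈ range (t + 1), r i ^ x i ≤ ρ ^ G * (∏ i ∈ range (t + 1), r i) ^ x t) := by
  have hR0 : ∀ t, 0 ≤ ∏ i ∈ range t, r i := fun t => Finset.prod_nonneg fun i _ => hr i
  intro t
  induction t with
  | zero =>
    intro _
    refine ⟨by simp, ?_⟩
    rintro ⟨t', ht', _⟩
    omega
  | succ t ih =>
    intro ht
    obtain ⟨h1, h2⟩ := ih (by omega)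
    have hxt := hx t (by omega)
    have e1 : ∏ i ∈ range (t + 1 + 1), r i ^ x i =
        (∏ i ∈ range (t + 1), r i ^ x i) * r (t + 1) ^ x (t + 1) := Finset.prod_range_succ _ _
    have e2 : (∏ i ∈ range (t + 1 + 1), r i) ^ x (t + 1) =
        (∏ i ∈ range (t + 1), r i) ^ x (t + 1) * r (t + 1) ^ x (t + 1) := by
      rw [Finset.prod_range_succ, mul_pow]
    have e3 : (∏ i ∈ range (t + 1), r i) ^ x t =
        (∏ i ∈ range (t + 1), r i) ^ x (t + 1) * (∏ i ∈ range (t + 1), r i) ^ (x t - x (t + 1)) := by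
      rw [← pow_add]
      congr 1
      omega
    have hp := hR (t + 1) (by omega)
    have hp0 := hR0 (t + 1)
    have hq : 0 ≤ r (t + 1) ^ x (t + 1) := pow_nonneg (hr _) _
    have hpx : 0 ≤ (∏ i ∈ range (t + 1), r i) ^ x (t + 1) := pow_nonneg hp0 _
    constructor
    · rw [e1, e2]
      refine mul_le_mul_of_nonneg_right (h1.trans ?_) hq
      rw [e3]
      exact mul_le_of_le_one_right hpx (pow_le_one₀ hp0 hp)
    · rintro ⟨t', ht', h3⟩
      rw [e1, e2, ← mul_assoc]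
      refine mul_le_mul_of_nonneg_right ?_ hq
      rcases Nat.lt_or_ge t' t with h4 | h4
      · refine (h2 ⟨t', h4, h3⟩).trans ?_
        refine mul_le_mul_of_nonneg_left ?_ (pow_nonneg hρ0 _)
        rw [e3]
        exact mul_le_of_le_one_right hpx (pow_le_one₀ hp0 hp)
      · have h5 : t' = t := by omega
        rw [h5] at h3
        refine h1.trans ?_
        rw [e3, mul_comm]
        refine mul_le_mul_of_nonneg_right ?_ hpx
        calc (∏ i ∈ range (t + 1), r i) ^ (x t - x (t + 1)) ≤ ρ ^ (x t - x (t + 1)) :=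
              pow_le_pow_left₀ hp0 h3 _
          _ ≤ ρ ^ G := pow_le_pow_of_le_one hρ0 hρ1 (by omega)

/-- the bound for the ratio of a term and the main term -/
theorem wt (j k : ℕ) (hj : 1 ≤ j) (n : ℕ → ℕ) (hn : ∀ i < k, 1 ≤ n i ∧ n i ≠ j)
    (hinj : Set.InjOn n (Set.Iio k)) (hne : ∃ i < k, n i ≠ mm j i) (x : ℕ → ℕ) (G : ℕ)
    (hG : 2 ≤ G) (hxG : ∀ i < k, G ≤ x i) (hx : ∀ i, i + 1 < k → x (i + 1) + G ≤ x i) (M : ℕ)
    (hM : ∏ i ∈ range k, (i + 2) ≤ M) :
    ∏ i ∈ range k, ((mm j i : ℝ) / n i) ^ x i ≤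
      ((M : ℝ) / (M + 1)) ^ (G - 2) * (∏ i ∈ range k, ((mm j i : ℝ) / n i)) ^ 2 := by
  have hR : ∀ t ≤ k, ∏ i ∈ range t, ((mm j i : ℝ) / n i) ≤ 1 := by
    intro t ht
    rw [Finset.prod_div_distrib]
    refine div_le_one_of_le₀ ?_ (Finset.prod_nonneg fun i _ => Nat.cast_nonneg _)
    exact_mod_cast ratio_le j k hj n hn hinj t ht
  have hr : ∀ i, (0 : ℝ) ≤ (mm j i : ℝ) / n i := fun i => by positivity
  have hρ0 : (0 : ℝ) ≤ (M : ℝ) / (M + 1) := by positivity
  have hρ1 : (M : ℝ) / (M + 1) ≤ 1 := by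
    rw [div_le_one (by positivity)]
    linarith
  obtain ⟨t, htk, ht⟩ := ratio_lt j k hj n hn hinj hne
  have hρ : ∏ i ∈ range (t + 1), ((mm j i : ℝ) / n i) ≤ (M : ℝ) / (M + 1) := by
    rw [Finset.prod_div_distrib]
    have h1 : (∏ i ∈ range (t + 1), (mm j i : ℝ)) + 1 ≤ ∏ i ∈ range (t + 1), (n i : ℝ) := by
      exact_mod_cast ht
    have h2 : ∏ i ∈ range (t + 1), mm j i ≤ M := by
      refine le_trans ?_ hM
      refine (Finset.prod_le_prod' fun i _ => mm_le j i).trans ?_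
      exact Finset.prod_le_prod_of_subset_of_one_le' (Finset.range_mono htk)
        (fun i _ _ => by omega)
    have h3 : (∏ i ∈ range (t + 1), (mm j i : ℝ)) ≤ M := by exact_mod_cast h2
    have h4 : (0 : ℝ) < ∏ i ∈ range (t + 1), (mm j i : ℝ) := by
      refine Finset.prod_pos fun i _ => ?_
      exact_mod_cast mm_pos j i
    rw [div_le_div_iff₀ (by linarith) (by positivity)]
    nlinarith
  obtain ⟨k', rfl⟩ : ∃ k', k = k' + 1 := ⟨k - 1, by omega⟩
  obtain ⟨h1, h2⟩ := abel (k' + 1) (fun i => (mm j i : ℝ) / n i) x G ((M : ℝ) / (M + 1)) hρ0 hρ1 hr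
    hR hx k' le_rfl
  have hP0 : (0 : ℝ) ≤ ∏ i ∈ range (k' + 1), ((mm j i : ℝ) / n i) :=
    Finset.prod_nonneg fun i _ => hr i
  have hP1 := hR (k' + 1) le_rfl
  have hxk := hxG k' (by omega)
  rcases Nat.lt_or_ge t k' with h3 | h3
  · refine (h2 ⟨t, h3, hρ⟩).trans ?_
    exact mul_le_mul (pow_le_pow_of_le_one hρ0 hρ1 (by omega))
      (pow_le_pow_of_le_one hP0 hP1 (by omega)) (pow_nonneg hP0 _) (pow_nonneg hρ0 _)
  · have h4 : t = k' := by omega
    rw [h4] at hρ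
    refine h1.trans ?_
    have e1 : x k' = (x k' - 2) + 2 := by omega
    rw [e1, pow_add]
    refine mul_le_mul_of_nonneg_right ?_ (pow_nonneg hP0 _)
    exact (pow_le_pow_left₀ hP0 hρ _).trans (pow_le_pow_of_le_one hρ0 hρ1 (by omega))

/-- the term of a tuple -/
noncomputable def tm (k j : ℕ) (x f : Fin k → ℕ) : ℝ :=
  ∏ i, ((1 / ((f i : ℝ) + 1)) ^ x i * (1 - (j : ℝ) ^ 2 / ((f i : ℝ) + 1) ^ 2))

/-- the leading tuple -/
def f0 (k j : ℕ) (i : Fin k) : ℕ := mm j i - 1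

theorem f0_cast (k j : ℕ) (i : Fin k) : ((f0 k j i : ℕ) : ℝ) + 1 = (mm j i : ℝ) := by
  have h := mm_pos j (i : ℕ)
  unfold f0
  rw [Nat.cast_sub h]
  push_cast
  ring

theorem f0_inj (k j : ℕ) : Function.Injective (f0 k j) := by
  intro a b h
  have h1 := mm_pos j (a : ℕ)
  have h2 := mm_pos j (b : ℕ)
  unfold f0 at h
  have h3 : mm j a = mm j b := by omega
  exact Fin.ext ((mm_strict j).injective h3)

/-- the factor of the main term -/
noncomputable def cj (k j : ℕ) : ℝ := ∏ i : Fin k, |1 - (j : ℝ) ^ 2 / (mm j i : ℝ) ^ 2|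

theorem cj_pos (k j : ℕ) : 0 < cj k j := by
  refine Finset.prod_pos fun i _ => abs_pos.2 ?_
  have h1 := mm_ne j (i : ℕ)
  have h2 : (0 : ℝ) < (mm j i : ℝ) := by exact_mod_cast mm_pos j (i : ℕ)
  intro h3
  apply h1
  have h4 : (j : ℝ) ^ 2 = (mm j i : ℝ) ^ 2 := by
    have h5 : (mm j i : ℝ) ^ 2 ≠ 0 := by positivity
    field_simp at h3
    linarith
  have h5 := (sq_eq_sq₀ (Nat.cast_nonneg j) h2.le).1 h4
  exact_mod_cast h5.symm

theorem tm_f0 (k j : ℕ) (x : Fin k → ℕ) :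
    |tm k j x (f0 k j)| = (∏ i : Fin k, (1 / (mm j i : ℝ)) ^ x i) * cj k j := by
  unfold tm cj
  rw [Finset.abs_prod, ← Finset.prod_mul_distrib]
  refine Finset.prod_congr rfl fun i _ => ?_
  rw [f0_cast, abs_mul, abs_of_nonneg (by positivity : (0 : ℝ) ≤ (1 / (mm j i : ℝ)) ^ x i)]

/-- the bound for the other terms -/
theorem tm_le (k j : ℕ) (hj : 1 ≤ j) (x f : Fin k → ℕ) (hf : Function.Injective f)
    (hne : f ≠ f0 k j) (G : ℕ) (hG : 2 ≤ G) (hxG : ∀ i, G ≤ x i)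
    (hx : ∀ i i' : Fin k, i < i' → x i' + G ≤ x i) (M : ℕ) (hM : ∏ i ∈ range k, (i + 2) ≤ M) :
    |tm k j x f| ≤ (∏ i : Fin k, (1 / (mm j i : ℝ)) ^ x i) *
      (((j : ℝ) ^ 2) ^ k * (((M : ℝ) / (M + 1)) ^ (G - 2) *
        ((M : ℝ) ^ 2 * ∏ i : Fin k, (1 / ((f i : ℝ) + 1)) ^ 2))) := by
  classical
  have hρ0 : (0 : ℝ) ≤ (M : ℝ) / (M + 1) := by positivity
  by_cases hjf : ∃ i, f i + 1 = j
  · obtain ⟨i, hi⟩ := hjf
    have h0 : tm k j x f = 0 := by
      unfold tm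
      refine Finset.prod_eq_zero (Finset.mem_univ i) ?_
      have h1 : ((f i : ℝ) + 1) = j := by exact_mod_cast hi
      have h2 : (j : ℝ) ^ 2 ≠ 0 := by positivity
      rw [h1, div_self h2, sub_self, mul_zero]
    rw [h0, abs_zero]
    positivity
  push Not at hjf
  set n : ℕ → ℕ := fun i => if h : i < k then f ⟨i, h⟩ + 1 else 1 with hn
  set X : ℕ → ℕ := fun i => if h : i < k then x ⟨i, h⟩ else 0 with hX
  have hnf : ∀ i : Fin k, n i = f i + 1 := fun i => by
    rw [hn]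
    simp only [dif_pos i.2]
  have hXx : ∀ i : Fin k, X i = x i := fun i => by
    rw [hX]
    simp only [dif_pos i.2]
  have h1 := wt j k hj n (fun i hi => by
      have := hnf ⟨i, hi⟩
      simp only at this
      have h2 := hjf ⟨i, hi⟩
      omega) (fun a ha b hb h => by
      have h2 := hnf ⟨a, ha⟩
      have h3 := hnf ⟨b, hb⟩
      simp only at h2 h3
      have h4 : f ⟨a, ha⟩ = f ⟨b, hb⟩ := by omega
      exact congrArg Fin.val (hf h4)) (by
      by_contra hcon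
      push Not at hcon
      apply hne
      funext i
      have h2 := hcon i i.2
      rw [hnf i] at h2
      unfold f0
      omega) X G hG (fun i hi => by
      have := hXx ⟨i, hi⟩
      simp only at this
      rw [this]
      exact hxG _) (fun i hi => by
      have h2 := hXx ⟨i, by omega⟩
      have h3 := hXx ⟨i + 1, hi⟩
      simp only at h2 h3
      rw [h2, h3]
      exact hx _ _ (by
        rw [Fin.lt_def]
        simp only
        omega)) M hM
  have e1 : ∏ i ∈ range k, ((mm j i : ℝ) / n i) ^ X i =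
      ∏ i : Fin k, ((mm j i : ℝ) / ((f i : ℝ) + 1)) ^ x i := by
    rw [← Fin.prod_univ_eq_prod_range (fun i => ((mm j i : ℝ) / n i) ^ X i) k]
    refine Finset.prod_congr rfl fun i _ => ?_
    rw [hnf, hXx]
    push_cast
    rfl
  have e2 : ∏ i ∈ range k, ((mm j i : ℝ) / n i) = ∏ i : Fin k, ((mm j i : ℝ) / ((f i : ℝ) + 1)) := by
    rw [← Fin.prod_univ_eq_prod_range (fun i => ((mm j i : ℝ) / n i)) k]
    refine Finset.prod_congr rfl fun i _ => ?_
    rw [hnf]
    push_cast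
    rfl
  rw [e1, e2] at h1
  have hmp : ∀ i : Fin k, (0 : ℝ) < (mm j i : ℝ) := fun i => by exact_mod_cast mm_pos j (i : ℕ)
  -- the polynomial factors
  have h2 : ∀ i : Fin k, |1 - (j : ℝ) ^ 2 / ((f i : ℝ) + 1) ^ 2| ≤ (j : ℝ) ^ 2 := by
    intro i
    have h3 : (1 : ℝ) ≤ (j : ℝ) ^ 2 := by
      have : (1 : ℝ) ≤ j := by exact_mod_cast hj
      nlinarith
    have h4 : (0 : ℝ) ≤ (j : ℝ) ^ 2 / ((f i : ℝ) + 1) ^ 2 := by positivity
    have h5 : (j : ℝ) ^ 2 / ((f i : ℝ) + 1) ^ 2 ≤ (j : ℝ) ^ 2 := by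
      refine div_le_self (by positivity) ?_
      have : (0 : ℝ) ≤ f i := Nat.cast_nonneg _
      nlinarith
    rw [abs_le]
    constructor <;> linarith
  have h3 : |tm k j x f| ≤ (∏ i : Fin k, (1 / ((f i : ℝ) + 1)) ^ x i) * ((j : ℝ) ^ 2) ^ k := by
    unfold tm
    rw [Finset.abs_prod]
    have e : ((j : ℝ) ^ 2) ^ k = ∏ _i : Fin k, (j : ℝ) ^ 2 := by
      rw [Finset.prod_const, Finset.card_univ, Fintype.card_fin]
    rw [e, ← Finset.prod_mul_distrib]
    refine Finset.prod_le_prod (fun i _ => abs_nonneg _) fun i _ => ?_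
    rw [abs_mul, abs_of_nonneg (by positivity : (0 : ℝ) ≤ (1 / ((f i : ℝ) + 1)) ^ x i)]
    exact mul_le_mul_of_nonneg_left (h2 i) (by positivity)
  have e3 : ∏ i : Fin k, (1 / ((f i : ℝ) + 1)) ^ x i =
      (∏ i : Fin k, (1 / (mm j i : ℝ)) ^ x i) * ∏ i : Fin k, ((mm j i : ℝ) / ((f i : ℝ) + 1)) ^ x i := by
    rw [← Finset.prod_mul_distrib]
    refine Finset.prod_congr rfl fun i _ => ?_
    rw [← mul_pow]
    congr 1
    have := (hmp i).ne'
    field_simp
  have e4 : (∏ i : Fin k, ((mm j i : ℝ) / ((f i : ℝ) + 1))) ^ 2 ≤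
      (M : ℝ) ^ 2 * ∏ i : Fin k, (1 / ((f i : ℝ) + 1)) ^ 2 := by
    have h5 : ∏ i : Fin k, ((mm j i : ℝ) / ((f i : ℝ) + 1)) =
        (∏ i : Fin k, (mm j i : ℝ)) * ∏ i : Fin k, (1 / ((f i : ℝ) + 1)) := by
      rw [← Finset.prod_mul_distrib]
      refine Finset.prod_congr rfl fun i _ => ?_
      ring
    have h7 : (∏ i : Fin k, (1 / ((f i : ℝ) + 1))) ^ 2 = ∏ i : Fin k, (1 / ((f i : ℝ) + 1)) ^ 2 := by
      rw [← Finset.prod_pow]
    rw [h5, mul_pow, h7]
    refine mul_le_mul_of_nonneg_right ?_ (Finset.prod_nonneg fun i _ => by positivity)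
    refine pow_le_pow_left₀ (Finset.prod_nonneg fun i _ => (hmp i).le) ?_ 2
    have h6 : ∏ i : Fin k, mm j i ≤ M := by
      refine le_trans ?_ hM
      rw [← Fin.prod_univ_eq_prod_range (fun i => i + 2) k]
      exact Finset.prod_le_prod' fun i _ => mm_le j i
    exact_mod_cast h6
  have hPm : (0 : ℝ) ≤ ∏ i : Fin k, (1 / (mm j i : ℝ)) ^ x i := Finset.prod_nonneg fun i _ => by positivity
  calc |tm k j x f| ≤ (∏ i : Fin k, (1 / ((f i : ℝ) + 1)) ^ x i) * ((j : ℝ) ^ 2) ^ k := h3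
    _ = (∏ i : Fin k, (1 / (mm j i : ℝ)) ^ x i) *
        (((j : ℝ) ^ 2) ^ k * ∏ i : Fin k, ((mm j i : ℝ) / ((f i : ℝ) + 1)) ^ x i) := by
        rw [e3]
        ring
    _ ≤ _ := by
        refine mul_le_mul_of_nonneg_left ?_ hPm
        refine mul_le_mul_of_nonneg_left ?_ (by positivity)
        refine h1.trans ?_
        exact mul_le_mul_of_nonneg_left e4 (pow_nonneg hρ0 _)

theorem sum_sq (N : ℕ) : ∑ n ∈ range N, (1 / ((n : ℝ) + 1)) ^ 2 ≤ 2 := by
  have h : ∀ N : ℕ, ∑ n ∈ range (N + 1), (1 / ((n : ℝ) + 1)) ^ 2 ≤ 2 - 1 / ((N : ℝ) + 1) := by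
    intro N
    induction N with
    | zero => norm_num
    | succ N ih =>
      rw [Finset.sum_range_succ]
      have h1 : (1 / (((N + 1 : ℕ) : ℝ) + 1)) ^ 2 ≤
          1 / ((N : ℝ) + 1) - 1 / (((N + 1 : ℕ) : ℝ) + 1) := by
        have h2 : 1 / ((N : ℝ) + 1) - 1 / (((N + 1 : ℕ) : ℝ) + 1) =
            1 / (((N : ℝ) + 1) * (((N + 1 : ℕ) : ℝ) + 1)) := by
          push_cast
          field_simp
          ring
        rw [h2, one_div_pow]
        refine one_div_le_one_div_of_le (by positivity) ?_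
        push_cast
        nlinarith [(Nat.cast_nonneg N : (0 : ℝ) ≤ N)]
      linarith
  rcases Nat.eq_zero_or_pos N with rfl | hN
  · simp
  · obtain ⟨N, rfl⟩ : ∃ N', N = N' + 1 := ⟨N - 1, by omega⟩
    have := h N
    have h1 : (0 : ℝ) ≤ 1 / ((N : ℝ) + 1) := by positivity
    linarith

open Classical in
/-- the finite sums -/
noncomputable def PN (k j N : ℕ) (x : Fin k → ℕ) : ℝ :=
  ∑ f ∈ (Fintype.piFinset fun _ : Fin k => range N).filter Function.Injective, tm k j x f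

/-- EST.  The leading term. -/
theorem est (k j : ℕ) (hj : 1 ≤ j) (ε : ℝ) (hε : 0 < ε) :
    ∃ G : ℕ, ∀ x : Fin k → ℕ, (∀ i, G ≤ x i) → (∀ i i' : Fin k, i < i' → x i' + G ≤ x i) →
      ∀ N, k + 2 ≤ N → |PN k j N x - tm k j x (f0 k j)| ≤ ε * |tm k j x (f0 k j)| := by
  classical
  set M : ℕ := ∏ i ∈ range k, (i + 2) with hM
  have hρ0 : (0 : ℝ) ≤ (M : ℝ) / (M + 1) := by positivity
  have hρ1 : (M : ℝ) / (M + 1) < 1 := by
    rw [div_lt_one (by positivity)]
    linarith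
  have ht : Filter.Tendsto (fun g : ℕ => ((j : ℝ) ^ 2) ^ k * (((M : ℝ) / (M + 1)) ^ g *
      ((M : ℝ) ^ 2 * 2 ^ k))) Filter.atTop (nhds (((j : ℝ) ^ 2) ^ k * (0 * ((M : ℝ) ^ 2 * 2 ^ k)))) :=
    ((tendsto_pow_atTop_nhds_zero_of_lt_one hρ0 hρ1).mul_const _).const_mul _
  rw [zero_mul, mul_zero] at ht
  have hc := cj_pos k j
  obtain ⟨g, hg⟩ := ((ht.eventually (gt_mem_nhds (mul_pos hε hc))).exists)
  refine ⟨g + 2, fun x hxG hx N hN => ?_⟩
  have hf0 : f0 k j ∈ (Fintype.piFinset fun _ : Fin k => range N).filter Function.Injective := by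
    rw [Finset.mem_filter, Fintype.mem_piFinset]
    refine ⟨fun i => ?_, f0_inj k j⟩
    rw [Finset.mem_range]
    have h1 := mm_le j (i : ℕ)
    have h2 := i.2
    unfold f0
    omega
  have h1 : PN k j N x - tm k j x (f0 k j) =
      ∑ f ∈ ((Fintype.piFinset fun _ : Fin k => range N).filter Function.Injective).erase (f0 k j),
        tm k j x f := by
    unfold PN
    rw [← Finset.add_sum_erase _ _ hf0]
    ring
  rw [h1, tm_f0]
  set A : ℝ := ∏ i : Fin k, (1 / (mm j i : ℝ)) ^ x i with hA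
  have hA0 : 0 ≤ A := Finset.prod_nonneg fun i _ => by positivity
  calc |∑ f ∈ ((Fintype.piFinset fun _ : Fin k => range N).filter Function.Injective).erase (f0 k j),
        tm k j x f|
      ≤ ∑ f ∈ ((Fintype.piFinset fun _ : Fin k => range N).filter Function.Injective).erase (f0 k j),
        |tm k j x f| := Finset.abs_sum_le_sum_abs _ _
    _ ≤ ∑ f ∈ ((Fintype.piFinset fun _ : Fin k => range N).filter Function.Injective).erase (f0 k j),
        A * (((j : ℝ) ^ 2) ^ k * (((M : ℝ) / (M + 1)) ^ (g + 2 - 2) *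
          ((M : ℝ) ^ 2 * ∏ i : Fin k, (1 / ((f i : ℝ) + 1)) ^ 2))) := by
        refine Finset.sum_le_sum fun f hf => ?_
        rw [Finset.mem_erase, Finset.mem_filter] at hf
        exact tm_le k j hj x f hf.2.2 hf.1 (g + 2) (by omega) hxG hx M le_rfl
    _ ≤ ∑ f ∈ Fintype.piFinset (fun _ : Fin k => range N),
        A * (((j : ℝ) ^ 2) ^ k * (((M : ℝ) / (M + 1)) ^ (g + 2 - 2) *
          ((M : ℝ) ^ 2 * ∏ i : Fin k, (1 / ((f i : ℝ) + 1)) ^ 2))) := by
        refine Finset.sum_le_sum_of_subset_of_nonneg ?_ fun f _ _ => by positivity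
        exact (Finset.erase_subset _ _).trans (Finset.filter_subset _ _)
    _ = A * (((j : ℝ) ^ 2) ^ k * (((M : ℝ) / (M + 1)) ^ g *
          ((M : ℝ) ^ 2 * (∑ n ∈ range N, (1 / ((n : ℝ) + 1)) ^ 2) ^ k))) := by
        have h2 : (∑ n ∈ range N, (1 / ((n : ℝ) + 1)) ^ 2) ^ k =
            ∑ f ∈ Fintype.piFinset (fun _ : Fin k => range N),
              ∏ i : Fin k, (1 / ((f i : ℝ) + 1)) ^ 2 := by
          have h3 := Finset.prod_univ_sum (fun _ : Fin k => range N)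
            (fun (_ : Fin k) (n : ℕ) => (1 / ((n : ℝ) + 1)) ^ 2)
          rw [← h3, Finset.prod_const, Finset.card_univ, Fintype.card_fin]
        rw [h2, Finset.mul_sum, Finset.mul_sum, Finset.mul_sum, Finset.mul_sum]
        rfl
    _ ≤ A * (((j : ℝ) ^ 2) ^ k * (((M : ℝ) / (M + 1)) ^ g * ((M : ℝ) ^ 2 * 2 ^ k))) := by
        have h2 : (∑ n ∈ range N, (1 / ((n : ℝ) + 1)) ^ 2) ^ k ≤ 2 ^ k :=
          pow_le_pow_left₀ (Finset.sum_nonneg fun n _ => by positivity) (sum_sq N) k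
        gcongr
    _ ≤ ε * (A * cj k j) := by
        have h3 := mul_le_mul_of_nonneg_left hg.le hA0
        calc _ ≤ A * (ε * cj k j) := h3
          _ = ε * (A * cj k j) := by ring

end Pool.Agent.EDW
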